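import Pool.Agent.Helper10.AB.GoalsF2

/-! Project AB, packet EX3: extension from `Ω̃` to its closure. -/

open MeasureTheory Set Filter Topology
open scoped ContDiff

noncomputable section

namespace Pool.Agent.Helper83.AB

open Pool.Agent.Helper24.AB Pool.Agent.Helper10.AB
open Pool.Agent.Helper15.AB (S_XI S_ATL XiI)

/-- the compact pieces of the closed cylinder -/
theorem cyl_compact (a T : ℝ) :
    IsCompact {q : (Fin 4 → ℝ) × (Fin 4 → ℝ) | (∑ i, q.1 i ^ 2) ≤ a ^ 2 ∧ ‖q.2‖ ≤ T} := by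
  refine Metric.isCompact_of_isClosed_isBounded ?_ ?_
  · have h1 : IsClosed {q : (Fin 4 → ℝ) × (Fin 4 → ℝ) | (∑ i, q.1 i ^ 2) ≤ a ^ 2} :=
      isClosed_le (by fun_prop) continuous_const
    have h2 : IsClosed {q : (Fin 4 → ℝ) × (Fin 4 → ℝ) | ‖q.2‖ ≤ T} :=
      isClosed_le (by fun_prop) continuous_const
    exact h1.inter h2
  · refine (Metric.isBounded_closedBall (x := (0 : (Fin 4 → ℝ) × (Fin 4 → ℝ)))
      (r := max |a| T)).subset ?_
    rintro ⟨x, y⟩ ⟨h1, h2⟩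
    rw [mem_closedBall_zero_iff, Prod.norm_mk]
    refine max_le_max ?_ h2
    rw [pi_norm_le_iff_of_nonneg (abs_nonneg a)]
    intro i
    rw [Real.norm_eq_abs]
    refine sq_le_sq.1 ?_
    exact (Finset.single_le_sum (f := fun i => x i ^ 2) (fun j _ => sq_nonneg (x j))
      (Finset.mem_univ i)).trans h1

/-- the real part of the projection -/
def pj (j : Fin 4) : V4 →L[ℝ] ℂ :=
  (ContinuousLinearMap.proj (R := ℂ) (φ := fun _ : Fin 4 => ℂ) j).restrictScalars ℝ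

theorem ex3 : S_XI → S_EX1 → S_EX2 → S_EX3 := by
  intro hXI hEX1 hEX2 a A δ₀ ρ₀ s p B hd ι u nx hu hub
  classical
  obtain ⟨hs, hsI, hl, hr, h3, hrf, hin, hcl⟩ := hXI a A s p hd.prof hd.pot.smooth
  have ha : 0 < a := hd.prof.a_pos
  set W : Set ((Fin 4 → ℝ) × (Fin 4 → ℝ)) := {q | |q.1 3| < 3 * a / 2} with hW
  have hWo : IsOpen W := isOpen_lt (by fun_prop) continuous_const
  have hle : ∀ q : (Fin 4 → ℝ) × (Fin 4 → ℝ), (∑ i, q.1 i ^ 2) ≤ a ^ 2 → q ∈ W := by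
    intro q hq
    have h1 : q.1 3 ^ 2 ≤ a ^ 2 := (Finset.single_le_sum (f := fun i => q.1 i ^ 2)
      (fun j _ => sq_nonneg (q.1 j)) (Finset.mem_univ 3)).trans hq
    have h2 : |q.1 3| ≤ a := abs_le_of_sq_le_sq h1 ha.le
    change |q.1 3| < 3 * a / 2
    linarith
  have hsW : ContDiffOn ℝ ∞ (Xi a A s p) W := hs
  set U : ι → (Fin 4 → ℝ) × (Fin 4 → ℝ) → ℂ := fun i q => u i (Xi a A s p q) with hU
  set l : Fin 4 → (Fin 4 → ℝ) × (Fin 4 → ℝ) → ((Fin 4 → ℝ) × (Fin 4 → ℝ)) →L[ℝ] ℂ :=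
    fun j q => (pj j).comp (fderiv ℝ (Xi a A s p) q) with hldef
  have hls : ∀ j, ContDiffOn ℝ ∞ (l j) W := by
    intro j
    have h1 : ContDiffOn ℝ ∞ (fderiv ℝ (Xi a A s p)) W :=
      hsW.fderiv_of_isOpen hWo (by simp)
    exact contDiffOn_const.clm_comp h1
  have hD : ∀ i q, (∑ j, q.1 j ^ 2) < a ^ 2 →
      HasFDerivAt (U i) (∑ j, U (nx i j) q • l j q) q := by
    intro i q hq
    have h1 : HasFDerivAt (Xi a A s p) (fderiv ℝ (Xi a A s p) q) q :=
      ((hsW.differentiableOn (by simp)).differentiableAt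
        (hWo.mem_nhds (hle q hq.le))).hasFDerivAt
    have h2 := (hu i (Xi a A s p q) ((hin q).2 hq)).restrictScalars ℝ
    have h3 := h2.comp q h1
    refine h3.congr_fderiv ?_
    refine ContinuousLinearMap.ext fun z => ?_
    rw [ContinuousLinearMap.sum_apply]
    change (∑ j, u (nx i j) (Xi a A s p q) • ContinuousLinearMap.proj (R := ℂ)
      (φ := fun _ : Fin 4 => ℂ) j) (fderiv ℝ (Xi a A s p) q z) = _
    rw [ContinuousLinearMap.sum_apply]
    rfl
  have hbd : ∀ i (T : ℝ), ∃ C : ℝ, ∀ q, (∑ j, q.1 j ^ 2) < a ^ 2 → ‖q.2‖ ≤ T →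
      ‖U i q‖ ≤ C := by
    refine hEX1 a ι U (fun i q => ∑ j, U (nx i j) q • l j q) ha hD ?_ ?_
    · intro i
      refine ⟨Finset.univ.image (nx i), fun T => ?_⟩
      have hK := cyl_compact a T
      have h1 : ∀ j, ∃ L : ℝ, ∀ q ∈ {q : (Fin 4 → ℝ) × (Fin 4 → ℝ) |
          (∑ i, q.1 i ^ 2) ≤ a ^ 2 ∧ ‖q.2‖ ≤ T}, ‖l j q‖ ≤ L := by
        intro j
        exact hK.exists_bound_of_continuousOn ((hls j).continuousOn.mono fun q hq => hle q hq.1)
      choose L hL using h1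
      refine ⟨∑ j, |L j|, fun q hq hT => ?_⟩
      have hq' : q ∈ {q : (Fin 4 → ℝ) × (Fin 4 → ℝ) |
          (∑ i, q.1 i ^ 2) ≤ a ^ 2 ∧ ‖q.2‖ ≤ T} := ⟨hq.le, hT⟩
      refine (norm_sum_le _ _).trans ?_
      rw [Finset.sum_mul]
      refine Finset.sum_le_sum fun j _ => ?_
      rw [norm_smul, mul_comm]
      refine mul_le_mul ((hL j q hq').trans (le_abs_self _)) ?_ (norm_nonneg _) (abs_nonneg _)
      exact Finset.single_le_sum (f := fun k => ‖U k q‖) (fun k _ => norm_nonneg _)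
        (Finset.mem_image_of_mem _ (Finset.mem_univ j))
    · intro i T
      obtain ⟨C, hC⟩ := hub i T
      refine ⟨C, fun q hq hT => ?_⟩
      have h1 := hC (Xi a A s p q) ((hin q).2 hq) (by
        rw [h3]
        have h4 := norm_le_pi_norm q.2 3
        rw [Real.norm_eq_abs] at h4
        exact h4.trans hT)
      rw [hrf, abs_of_neg (by linarith), neg_sub] at h1
      exact h1
  intro i
  obtain ⟨v, hv, hvu⟩ := hEX2 a ι U nx l ha (fun j => (hls j).mono fun q hq => hle q hq) hD hbd i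
  have hmem : ∀ P ∈ closure (Omt a A s p), XiI a A s p P ∈ Cyl a := by
    intro P hP
    exact (hcl (XiI a A s p P)).1 (by rw [hr]; exact hP)
  refine ⟨fun P => v (XiI a A s p P), ?_, ?_⟩
  · refine hv.comp (hsI.mono ?_) hmem
    intro P hP
    have h5 := hle _ (hmem P hP)
    exact h5
  · intro P hP
    have h6 : (∑ j, (XiI a A s p P).1 j ^ 2) < a ^ 2 := (hin (XiI a A s p P)).1 (by rw [hr]; exact hP)
    change v (XiI a A s p P) = u i P
    rw [hvu _ h6]
    change u i (Xi a A s p (XiI a A s p P)) = u i P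
    rw [hr]

end Pool.Agent.Helper83.AB
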